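import Pool.Agent.WAX.Stmts
import Pool.Agent.Helper88_AT3.Loc
import Pool.Agent.Helper49_AT3.BRG

/-!
# Squad WAX, row KRG: the bound if there is a regular element
-/

open scoped BigOperators

noncomputable section

namespace Pool.Agent.PP.TX.H52

open Pool.Agent.Helper51_AWC Pool.Agent.Helper79_WRA Pool.Agent.PP Pool.Agent.PP.KF
open Pool.Agent.PP.K9 Pool.Agent.PP.K9.H97 Pool.Agent.PP.H75 Pool.Agent.PP.T3 Pool.Agent.PP.TX

attribute [local instance] Ideal.Quotient.field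

/-- the number of the numbers below `ℓ ^ b` which are prime to `ℓ` -/
theorem card_pr {ℓ : ℕ} (hℓ : ℓ.Prime) {b : ℕ} (hb : 0 < b) :
    ((Finset.range (ℓ ^ b)).filter (fun j => ¬ ℓ ∣ j)).card = ℓ ^ (b - 1) * (ℓ - 1) := by
  rw [← Nat.totient_prime_pow hℓ hb, Nat.totient_eq_card_coprime]
  congr 1
  apply Finset.filter_congr
  intro j _
  rw [Nat.coprime_pow_left_iff hb, Nat.Prime.coprime_iff_not_dvd hℓ]

/-- row KRG -/
theorem krg (rgl : T3.RglStmt) (inr : T3.InrStmt) (glp : T3.GlpStmt) (co1 : T3.Co1Stmt)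
    (lpw : T3.LpwStmt) (cgr : T3.CgrStmt) (dgc : T3.DgcStmt) (inx : K9.InxStmt)
    (lbd : K9.LbdStmt) : KrgStmt := by
  intro ℓ _ M _ hM G _ _ e V γ hLd ⟨u, hRg⟩
  classical
  have hℓ : ℓ.Prime := Fact.out
  have hF : GoodF ℓ (FF M) := H50.fld ℓ hℓ M hM
  have hfin : (IrrE M e).Finite := T3.H49.irrE_fin M e
  obtain ⟨b, d, hLc, hDg, hn, -⟩ := rgl ℓ M hM G e V γ hLd u hRg
  -- the order of `u`
  obtain ⟨a, ha⟩ : ∃ a : ℕ, orderOf u = ℓ ^ a := by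
    obtain ⟨n, hn⟩ := hLd.tp.pg ⟨u, hRg.1⟩
    have h1 : u ^ ℓ ^ n = 1 := congrArg Subtype.val hn
    obtain ⟨a, -, ha⟩ := (Nat.dvd_prime_pow hℓ).mp (orderOf_dvd_of_pow_eq_one h1)
    exact ⟨a, ha⟩
  have ha0 : 0 < a := by
    apply Nat.pos_of_ne_zero
    rintro rfl
    rw [pow_zero, orderOf_eq_one_iff] at ha
    exact hRg.2.1 ha
  have huℓ : u ^ ℓ ^ a = 1 := by rw [← ha, pow_orderOf_eq_one]
  have hqpos : 0 < ℓ ^ a := pow_pos hℓ.pos a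
  have hd : 0 < d := hDg.1
  have hζ := Complex.isPrimitiveRoot_exp (ℓ ^ a) hqpos.ne'
  obtain ⟨ζ, hζe⟩ : ∃ ζ : ℂ, ζ = Complex.exp (2 * Real.pi * Complex.I / (ℓ ^ a : ℕ)) := ⟨_, rfl⟩
  rw [← hζe] at hζ
  obtain ⟨J, hJ⟩ : ∃ J : Finset ℕ, J = (Finset.range (ℓ ^ a)).filter (fun j => ¬ ℓ ∣ j) := ⟨_, rfl⟩
  have hJc : J.card = ℓ ^ (a - 1) * (ℓ - 1) := by
    rw [hJ]
    exact card_pr hℓ ha0
  -- the values are not zero
  obtain ⟨c, hc⟩ := dgc ℓ M hM G e V γ hLd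
  obtain ⟨ε, hε, hcg⟩ := cgr ℓ M hM G e V γ hLd c hc u hRg b hLc d hDg
  have hix : ¬ ℓ ∣ ix V γ :=
    inx ℓ M hM G e hLd.blk V hLd.tp hLd.ab γ hLd.gam.1 hLd.gam.2 hLd.und
  have hne : ∀ χ ∈ IrrE M e, gv M (Cu u) u b χ ≠ 0 := by
    intro χ hχ h0
    have o2 := (hcg χ hχ).2
    rw [h0, zero_div, zero_mul, rr_zero] at o2
    have := hF.char
    have h1 : ((ε * ix V γ : ℤ) : FF M) = 0 := o2.symm
    rw [CharP.intCast_eq_zero_iff (FF M) ℓ] at h1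
    rcases hε with rfl | rfl
    · rw [one_mul] at h1
      exact hix (by exact_mod_cast h1)
    · rw [neg_one_mul, dvd_neg] at h1
      exact hix (by exact_mod_cast h1)
  -- the lower bound
  have key1 : ∀ χ ∈ IrrE M e, ((ℓ ^ (a - 1) * (ℓ - 1) : ℕ) : ℝ) * (d : ℝ) ^ 2 ≤
      ∑ j ∈ J, Complex.normSq (gv M (Cu u) (u ^ j) b χ) := by
    intro χ hχ
    obtain ⟨m, hm⟩ := inr M G u (ℓ ^ a) hqpos huℓ b hLc.blk.ix d hDg ζ hζ χ hχ.1
    have h1 : ∑ i ∈ Finset.range (ℓ ^ a), (m i : ℂ) * ζ ^ i ≠ 0 := by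
      intro h0
      apply hne χ hχ
      have h2 := hm 1
      rw [pow_one] at h2
      rw [h2]
      simp_rw [mul_one]
      rw [h0, mul_zero]
    have h3 := (glp ℓ a ha0 ζ hζ m h1).1
    rw [← hJ] at h3
    have h4 : ∑ j ∈ J, Complex.normSq (gv M (Cu u) (u ^ j) b χ) = (d : ℝ) ^ 2 *
        ∑ j ∈ J, Complex.normSq (∑ i ∈ Finset.range (ℓ ^ a), (m i : ℂ) * ζ ^ (i * j)) := by
      rw [Finset.mul_sum]
      refine Finset.sum_congr rfl fun j _ => ?_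
      rw [hm j, Complex.normSq_mul, Complex.normSq_natCast]
      ring
    rw [h4]
    have h6 : (0 : ℝ) ≤ (d : ℝ) ^ 2 := sq_nonneg _
    calc ((ℓ ^ (a - 1) * (ℓ - 1) : ℕ) : ℝ) * (d : ℝ) ^ 2
        = (d : ℝ) ^ 2 * ((ℓ ^ (a - 1) * (ℓ - 1) : ℕ) : ℝ) := mul_comm _ _
      _ ≤ _ := mul_le_mul_of_nonneg_left h3 h6
  -- the upper bound
  have hIf : (Irr G).Finite := T3.H49.irr_fin G
  have key2 : ∀ j ∈ J, ∑ χ ∈ hIf.toFinset, Complex.normSq (gv M (Cu u) (u ^ j) b χ) =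
      (Nat.card V : ℝ) * (d : ℝ) ^ 2 := by
    intro j hj
    rw [hJ, Finset.mem_filter] at hj
    obtain ⟨hCu, hLj⟩ := lpw ℓ (FF M) hF G e V γ hLd u hRg.1 b hLc j hj.2
    have h1 := co1 ℓ M hM G (u ^ j) (T3.H88.el_of_mem hLd.tp.pg (pow_mem hRg.1 j)) b hLj.blk.ix
    rw [hCu, finsum_mem_eq_finite_toFinset_sum _ hIf] at h1
    have hIb : (IrrE M (fun t : Cu u => b t)).Finite := T3.H49.irrE_fin M _
    have h2 : ∑ᶠ κ ∈ IrrE M (fun t : Cu u => b t), κ 1 ^ 2 = (Nat.card V : ℂ) * (d : ℂ) ^ 2 := by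
      rw [finsum_mem_congr rfl (fun κ hκ => by rw [hDg.2 κ hκ] :
        ∀ κ ∈ IrrE M (fun t : Cu u => b t), κ 1 ^ 2 = (d : ℂ) ^ 2),
        finsum_mem_eq_finite_toFinset_sum _ hIb, Finset.sum_const,
        ← Set.ncard_eq_toFinset_card _ hIb, hn, nsmul_eq_mul]
    rw [h2] at h1
    have h3 : ((∑ χ ∈ hIf.toFinset, Complex.normSq (gv M (Cu u) (u ^ j) b χ) : ℝ) : ℂ) =
        (((Nat.card V : ℝ) * (d : ℝ) ^ 2 : ℝ) : ℂ) := by
      push_cast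
      rw [← h1]
      refine Finset.sum_congr rfl fun χ _ => ?_
      rw [Complex.mul_conj]
    exact_mod_cast h3
  have hsub : hfin.toFinset ⊆ hIf.toFinset := by
    intro χ hχ
    rw [Set.Finite.mem_toFinset] at hχ ⊢
    exact hχ.1
  have hmain : (hfin.toFinset.card : ℝ) * (((ℓ ^ (a - 1) * (ℓ - 1) : ℕ) : ℝ) * (d : ℝ) ^ 2) ≤
      ((ℓ ^ (a - 1) * (ℓ - 1) : ℕ) : ℝ) * ((Nat.card V : ℝ) * (d : ℝ) ^ 2) := by
    calc (hfin.toFinset.card : ℝ) * (((ℓ ^ (a - 1) * (ℓ - 1) : ℕ) : ℝ) * (d : ℝ) ^ 2)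
        = ∑ χ ∈ hfin.toFinset, ((ℓ ^ (a - 1) * (ℓ - 1) : ℕ) : ℝ) * (d : ℝ) ^ 2 := by
          rw [Finset.sum_const, nsmul_eq_mul]
      _ ≤ ∑ χ ∈ hfin.toFinset, ∑ j ∈ J, Complex.normSq (gv M (Cu u) (u ^ j) b χ) :=
          Finset.sum_le_sum fun χ hχ => key1 χ ((Set.Finite.mem_toFinset hfin).1 hχ)
      _ ≤ ∑ χ ∈ hIf.toFinset, ∑ j ∈ J, Complex.normSq (gv M (Cu u) (u ^ j) b χ) :=
          Finset.sum_le_sum_of_subset_of_nonneg hsub fun χ _ _ =>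
            Finset.sum_nonneg fun j _ => Complex.normSq_nonneg _
      _ = ∑ j ∈ J, ∑ χ ∈ hIf.toFinset, Complex.normSq (gv M (Cu u) (u ^ j) b χ) :=
          Finset.sum_comm
      _ = ∑ j ∈ J, (Nat.card V : ℝ) * (d : ℝ) ^ 2 := Finset.sum_congr rfl key2
      _ = ((ℓ ^ (a - 1) * (ℓ - 1) : ℕ) : ℝ) * ((Nat.card V : ℝ) * (d : ℝ) ^ 2) := by
          rw [Finset.sum_const, hJc, nsmul_eq_mul]
  have hnc : (IrrE M e).ncard = hfin.toFinset.card := Set.ncard_eq_toFinset_card _ hfin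
  have hk : (IrrE M e).ncard ≤ Nat.card V := by
    rw [hnc]
    have hp : (0 : ℝ) < ((ℓ ^ (a - 1) * (ℓ - 1) : ℕ) : ℝ) * (d : ℝ) ^ 2 := by
      have h1 : 0 < ℓ - 1 := by
        have := hℓ.two_le
        omega
      have h2 : (0 : ℝ) < ((ℓ ^ (a - 1) * (ℓ - 1) : ℕ) : ℝ) := by
        exact_mod_cast Nat.mul_pos (pow_pos hℓ.pos _) h1
      have h3 : (0 : ℝ) < (d : ℝ) := by exact_mod_cast hd
      positivity
    have h4 : (hfin.toFinset.card : ℝ) ≤ (Nat.card V : ℝ) := by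
      refine le_of_mul_le_mul_right ?_ hp
      refine hmain.trans (le_of_eq ?_)
      ring
    exact_mod_cast h4
  exact (lbd ℓ M hM G e hLd.blk.1 hLd.blk.2.1).2.trans hk

end Pool.Agent.PP.TX.H52
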